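import Pool.Graph.R_seed8.W684.CF.Frame

/-!
# The sentence which is forced
-/

set_option autoImplicit false

namespace Pool.Agent.KS6_46.CF

open Pool.Agent.W684.CF Pool.Agent.Helper669.Forcing

/-- All functions from `ℕ` to `ℕ` can be listed by `L`. -/
def Listed (L : Type) : Prop :=
  ∃ E : L → ℕ → ℕ, ∀ g : ℕ → ℕ, ∃ l, ∀ n v, E l n = v → g n = v

/-- The combinatorial statement which is forced: there is a family of functions indexed by `K`
which is not captured by one slalom; for every proper initial segment of the well-ordered set `L`
there is a family of functions indexed by `L` which is not captured by the slaloms of a family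
indexed by this initial segment; all functions can be listed by `L`; there is a dominating family
indexed by `Ω`, increasing in the sense of `Dominated`; all families of functions indexed by `K`
are partly captured. -/
def PsiFor (K L Ω C : Type) [LinearOrder Ω] [LinearOrder L] : Prop :=
  NotCaptured K Unit ∧ (∀ l : L, NotCaptured L (Set.Iio l)) ∧ Listed L ∧ Dominated Ω ∧
    PartlyCaptured K C

/-- Forcing version of `Listed`; functions are given by names of their graphs. -/
def ListedN (P : Type) [Preorder P] (L : Type) : Set P :=
  fex fun E : L → ℕ → ℕ → Set P => fand (fall fun l => IsFun (E l))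
    (fall fun g : ℕ → ℕ → Set P => fimp (IsFun g)
      (fex fun l => fall fun n => fall fun v => fimp (meets (E l n v)) (meets (g n v))))

/-- The sentence `PsiFor K L Ω C` of the forcing language. -/
def PsiHolds (P : Type) [Preorder P] (K L Ω C : Type) [LinearOrder Ω] [LinearOrder L] : Set P :=
  fand (NotCapturedN P K Unit) (fand (fall fun l : L => NotCapturedN P L (Set.Iio l))
    (fand (ListedN P L) (fand (DominatedN P Ω) (PartlyCapturedN P K C))))

end Pool.Agent.KS6_46.CF
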