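import Pool.Agent.KS6_46.CF.Cofd
import Pool.Agent.KS6_46.CF.Sent
import Pool.Graph.R_seed8.W540.CFL.AMB

/-!
# The values of the cardinal characteristics
-/

set_option autoImplicit false
set_option linter.deprecated false

namespace Pool.Agent.KS6_46.CF

open Classical MeasureTheory Cardinal Filter
open scoped ENNReal Cardinal
open Pool.Agent.W684.CF Pool.Agent.W924.CF Pool.Agent.W540.CFL

/-- `add(N) ≤ #K` -/
theorem add_mem_of_notCaptured {K : Type} (hNC : NotCaptured K Unit) :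
    ∃ y : K → ℕ → ℕ, #(Set.range fun k => Pool.Agent.H20R3.Yor.nullG (y k)) ∈
      {c | ∃ F : Set (Set Cant), F ⊆ NullSets ∧ ⋃₀ F ∉ NullSets ∧ #F = c} := by
  obtain ⟨y, hy⟩ := hNC
  refine ⟨y, Set.range fun k => Pool.Agent.H20R3.Yor.nullG (y k), ?_, ?_, rfl⟩
  · rintro _ ⟨k, rfl⟩
    show mu _ = 0
    rw [mu_eq]
    exact Pool.Agent.H20R3.Yor.nullG_null _
  · intro hnull
    have hnull' : mu (⋃₀ Set.range fun k => Pool.Agent.H20R3.Yor.nullG (y k)) = 0 := hnull
    rw [mu_eq] at hnull'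
    obtain ⟨φ, hφ1, hφ2⟩ := Pool.Agent.H20R3.Yor.bart hnull'
    obtain ⟨l, hl⟩ := hy (fun _ n v => v ∈ φ n) (by
      intro _ n t ht
      dsimp only at ht
      by_contra hcon
      push Not at hcon
      have := Finset.card_le_card (fun v hv => hcon v hv : t ⊆ φ n)
      have h3 := hφ1 n
      omega)
    obtain ⟨n1, hn1⟩ := hφ2 (y l) (Set.subset_sUnion_of_mem ⟨l, rfl⟩)
    obtain ⟨n, hn, hn'⟩ := hl () n1
    exact hn' (hn1 n hn)

theorem add_le_of_notCaptured {K : Type} (hNC : NotCaptured K Unit) : addNum NullSets ≤ #K := by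
  obtain ⟨y, hy⟩ := add_mem_of_notCaptured hNC
  exact (csInf_le' hy).trans mk_range_le

/-- `#Ω < cof(N)` -/
theorem lt_cof_of_notCaptured {L Ω : Type} (hNC : NotCaptured L Ω) : #Ω < cofNum NullSets := by
  by_contra hcon
  push Not at hcon
  have hne : {c | ∃ F : Set (Set Cant), F ⊆ NullSets ∧ (∀ A ∈ NullSets, ∃ B ∈ F, A ⊆ B) ∧
      #F = c}.Nonempty :=
    ⟨_, NullSets, subset_rfl, fun A hA => ⟨A, hA, subset_rfl⟩, rfl⟩
  obtain ⟨F, hF, hcof, hcard⟩ := csInf_mem hne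
  have hFΩ : #F ≤ #Ω := by
    rw [hcard]
    exact hcon
  obtain ⟨B0, hB0, -⟩ := hcof ∅ sig_null.1
  have : Nonempty F := ⟨⟨B0, hB0⟩⟩
  obtain ⟨B, hB⟩ := exists_surj hFΩ
  have hbart : ∀ β : Ω, ∃ φ : ℕ → Finset ℕ, (∀ n, (φ n).card ≤ 2 ^ (3 * n)) ∧
      ∀ x : ℕ → ℕ, Pool.Agent.H20R3.Yor.nullG x ⊆ (B β : Set Cant) →
        ∃ n1, ∀ n ≥ n1, x n ∈ φ n := by
    intro β
    refine Pool.Agent.H20R3.Yor.bart ?_
    rw [← mu_eq]
    exact hF (B β).2
  choose φ hφ1 hφ2 using hbart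
  obtain ⟨y, hy⟩ := hNC
  obtain ⟨l, hl⟩ := hy (fun β n v => v ∈ φ β n) (by
    intro β n t ht
    dsimp only at ht
    by_contra hcon
    push Not at hcon
    have := Finset.card_le_card (fun v hv => hcon v hv : t ⊆ φ β n)
    have h3 := hφ1 β n
    omega)
  have hnull : Pool.Agent.H20R3.Yor.nullG (y l) ∈ NullSets := by
    show mu _ = 0
    rw [mu_eq]
    exact Pool.Agent.H20R3.Yor.nullG_null _
  obtain ⟨B', hB', hsub⟩ := hcof _ hnull
  obtain ⟨β, hβ⟩ := hB ⟨B', hB'⟩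
  obtain ⟨n1, hn1⟩ := hφ2 β (y l) (by rw [hβ]; exact hsub)
  obtain ⟨n, hn, hn'⟩ := hl β n1
  exact hn' (hn1 n hn)

/-- every sequence of sigma-ideals as in the definition of `cofin` has more than `#K` members -/
theorem lt_card_of_partlyCaptured {K C : Type} (hPart : PartlyCaptured K C) [Nonempty K] :
    ∀ γ ∈ ChainLengths NullSets, #K < γ.card := by
  intro γ hγ
  by_contra hcon
  push Not at hcon
  obtain ⟨hγ0, hγs, J, hJ1, hJ2, hJ3⟩ := hγ
  have hcard : #γ.ToType ≤ #K := by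
    rw [Cardinal.mk_toType]
    exact hcon
  have : Nonempty γ.ToType := Ordinal.nonempty_toType_iff.mpr hγ0.ne'
  obtain ⟨e', he'⟩ := exists_surj hcard
  obtain ⟨e, he1, he2⟩ : ∃ e : K → Ordinal.{0}, (∀ k, e k < γ) ∧ ∀ α < γ, ∃ k, e k = α := by
    refine ⟨fun k => Ordinal.typein (α := γ.ToType) (· < ·) (e' k), fun k =>
      Ordinal.typein_lt_self _, ?_⟩
    intro α hα
    obtain ⟨i, hi⟩ := Ordinal.typein_surj (α := γ.ToType) (· < ·) (o := α) (by
      rwa [Ordinal.type_toType])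
    obtain ⟨k, hk⟩ := he' i
    exact ⟨k, by rw [← hi, ← hk]⟩
  have hA : ∀ k, ∃ A : Set Cant, A ∈ NullSets ∧ A ∉ J (e k) := by
    intro k
    have h := hJ2 (e k) (e k + 1) (lt_add_of_pos_right _ zero_lt_one) (hγs _ (he1 k))
    obtain ⟨A, hA1, hA2⟩ := Set.exists_of_ssubset h
    exact ⟨A, (hJ3 A).mpr ⟨_, hγs _ (he1 k), hA1⟩, hA2⟩
  choose A hA1 hA2 using hA
  obtain ⟨Cc, hCc, hcode⟩ := Pool.Agent.H31R3.Yor.null_code
  have hx : ∀ k, ∃ x : ℕ → ℕ, A k ⊆ {z | ∃ᶠ n in atTop, z ∈ Cc n (x n)} :=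
    fun k => hcode (A k) (hA1 k)
  choose x hx using hx
  set D : K → (ℕ → Prop) → Set Cant := fun k b => {z | ∃ᶠ n in atTop, b n ∧ z ∈ Cc n (x k n)}
    with hD
  obtain ⟨d, hd⟩ := hPart
  set E : K → C → Prop := fun k c => D k (d c) ∉ J (e k) with hE
  obtain ⟨S, hS1, hS2⟩ := hd x E
  have hfin : ∀ n, {v | S n v}.Finite := by
    intro n
    by_contra hinf
    obtain ⟨t, ht1, ht2⟩ := Set.Infinite.exists_subset_card_eq hinf (n + 1)
    obtain ⟨v, hv, hv'⟩ := hS1 n t (by dsimp only; omega)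
    exact hv' (ht1 hv)
  set T : ℕ → Finset ℕ := fun n => (hfin n).toFinset with hT
  have hTc : ∀ n, (T n).card ≤ n := by
    intro n
    by_contra hlt
    push Not at hlt
    obtain ⟨v, hv, hv'⟩ := hS1 n (T n) hlt
    exact hv' ((hfin n).mem_toFinset.mp hv)
  set AS : Set Cant := {z | ∃ᶠ n in atTop, ∃ v ∈ T n, z ∈ Cc n v} with hAS
  have hASnull : AS ∈ NullSets := Pool.Agent.H31R3.Yor.null_slalom hCc hTc
  obtain ⟨α, hα, hASα⟩ := (hJ3 AS).mp hASnull
  obtain ⟨k, hk⟩ := he2 α hα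
  obtain ⟨c, N, hcN⟩ := hS2 k
  have hJk : SigmaIdeal (J (e k)) := hJ1 _ (he1 k)
  set b : ℕ → Prop := fun n => (d c n ↔ E k c) with hb
  have hsub : D k b ⊆ AS := by
    intro z hz
    have hz' : ∃ᶠ n in atTop, b n ∧ z ∈ Cc n (x k n) := hz
    have hev : ∀ᶠ n in atTop, N ≤ n := eventually_ge_atTop N
    refine (hz'.and_eventually hev).mono ?_
    rintro n ⟨⟨h1, h2⟩, h3⟩
    exact ⟨x k n, (hfin n).mem_toFinset.mpr (hcN n h3 h1), h2⟩
  have hmem : D k b ∈ J (e k) := by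
    rw [hk]
    exact (hJ1 α hα).2.1 AS hASα _ hsub
  by_cases hEc : E k c
  · have hbd : b = d c := by
      funext n
      simp [hb, hEc]
    rw [hbd] at hmem
    exact hEc hmem
  · have hbd : b = fun n => ¬ d c n := by
      funext n
      simp [hb, hEc]
    have hdc : D k (d c) ∈ J (e k) := by
      by_contra h
      exact hEc h
    have hun := union_mem hJk hdc hmem
    refine hA2 k (hJk.2.1 _ hun _ ?_)
    intro z hz
    have hz' : ∃ᶠ n in atTop, z ∈ Cc n (x k n) := hx k hz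
    have hz2 : ∃ᶠ n in atTop, (d c n ∧ z ∈ Cc n (x k n)) ∨ (b n ∧ z ∈ Cc n (x k n)) := by
      refine hz'.mono ?_
      intro n hn
      by_cases hdn : d c n
      · exact Or.inl ⟨hdn, hn⟩
      · refine Or.inr ⟨?_, hn⟩
        rw [hbd]
        exact hdn
    rcases Filter.frequently_or_distrib.mp hz2 with h | h
    · exact Or.inl h
    · exact Or.inr h

/-- `𝔡 ≤ #Ω` -/
theorem dominating_le_of_dominated {Ω : Type} [LinearOrder Ω] (h : Dominated Ω) :
    dominating ≤ #Ω := by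
  obtain ⟨f, hf⟩ := h
  refine (dominating_le (F := Set.range f) fun g => ?_).trans mk_range_le
  obtain ⟨β, hβ⟩ := hf g
  exact ⟨f β, ⟨β, rfl⟩, hβ β le_rfl⟩

/-- `ℵ₁ ≤ add(I)` for sigma-ideals -/
theorem aleph_one_le_add
    (hne : {c | ∃ F : Set (Set Cant), F ⊆ NullSets ∧ ⋃₀ F ∉ NullSets ∧ #F = c}.Nonempty) :
    ℵ₁ ≤ addNum NullSets := by
  obtain ⟨F, hF1, hF2, hF3⟩ := csInf_mem hne
  by_contra hcon
  rw [not_le] at hcon
  change addNum NullSets < ℵ₁ at hcon
  have h1 : #F < ℵ₁ := by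
    rw [hF3]
    exact hcon
  have h2 : F.Countable := by
    rw [Cardinal.countable_iff_lt_aleph_one]
    exact h1
  apply hF2
  rw [Set.sUnion_eq_biUnion]
  exact (measure_biUnion_null_iff h2).2 fun A hA => hF1 hA

/-- `cof(N) ≤ 𝔠` -/
theorem cof_le_continuum : cofNum NullSets ≤ 𝔠 := by
  obtain ⟨Cc, hCc, hcode⟩ := Pool.Agent.H31R3.Yor.null_code
  let B : (ℕ → ℕ) → Set Cant := fun x => {z | ∃ᶠ n in atTop, z ∈ Cc n (x n)}
  have hB : ∀ x, B x ∈ NullSets := by
    intro x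
    have h1 : B x ⊆ {z | ∃ᶠ n in atTop, ∃ v ∈ (if n = 0 then ∅ else {x n} : Finset ℕ),
        z ∈ Cc n v} := by
      intro z hz
      have hz' : ∃ᶠ n in atTop, z ∈ Cc n (x n) := hz
      refine (hz'.and_eventually (eventually_ge_atTop 1)).mono ?_
      rintro n ⟨h1, h2⟩
      refine ⟨x n, ?_, h1⟩
      rw [if_neg (by omega)]
      exact Finset.mem_singleton_self _
    refine measure_mono_null h1 (Pool.Agent.H31R3.Yor.null_slalom hCc fun n => ?_)
    split_ifs with h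
    · simp
    · rw [Finset.card_singleton]
      omega
  have h2 : cofNum NullSets ≤ #(Set.range B) := by
    refine csInf_le' ⟨Set.range B, ?_, fun A hA => ?_, rfl⟩
    · rintro _ ⟨x, rfl⟩
      exact hB x
    · obtain ⟨x, hx⟩ := hcode A hA
      exact ⟨B x, ⟨x, rfl⟩, hx⟩
  refine h2.trans (mk_range_le.trans (le_of_eq ?_))
  simp

/-- `𝔠 ≤ #L` -/
theorem continuum_le_of_listed {L : Type} (h : Listed L) : 𝔠 ≤ #L := by
  obtain ⟨E, hE⟩ := h
  have h1 : Function.Surjective E := by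
    intro g
    obtain ⟨l, hl⟩ := hE g
    exact ⟨l, (funext fun n => (hl n _ rfl)).symm⟩
  have h2 : #(ℕ → ℕ) ≤ #L := Cardinal.mk_le_of_surjective h1
  refine le_trans (le_of_eq ?_) h2
  simp

/-- The values. -/
theorem values {K L Ω C : Type} [LinearOrder Ω] [LinearOrder L] [WellFoundedLT L]
    (hK : #K = ℵ₁) (hΩ : #Ω ≤ Cardinal.aleph 2)
    (h : PsiFor K L Ω C) :
    addNum NullSets = ℵ₁ ∧ cofin NullSets = (Cardinal.aleph 2).ord ∧
      dominating = Cardinal.aleph 2 ∧ cofNum NullSets = #L ∧ 𝔠 = #L := by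
  obtain ⟨hNC1, hNC2, hLi, hDom, hPart⟩ := h
  have hKne : Nonempty K := by
    rw [← Cardinal.mk_ne_zero_iff, hK]
    exact (Cardinal.aleph_pos 1).ne'
  have h12 : Order.succ (ℵ₁ : Cardinal.{0}) = Cardinal.aleph 2 := by
    rw [Cardinal.succ_aleph, one_add_one_eq_two]
  have h1 : addNum NullSets = ℵ₁ :=
    le_antisymm ((add_le_of_notCaptured hNC1).trans hK.le)
      (aleph_one_le_add ⟨_, (add_mem_of_notCaptured hNC1).choose_spec⟩)
  have h2 : cofNum NullSets ≤ 𝔠 := cof_le_continuum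
  have h3 : 𝔠 ≤ #L := continuum_le_of_listed hLi
  have h4 : #L ≤ cofNum NullSets := by
    by_contra hcon
    rw [not_le] at hcon
    have h5 : ∃ l : L, cofNum NullSets ≤ #(Set.Iio l) := by
      by_contra hcon2
      push Not at hcon2
      have h6 : Ordinal.type (α := L) (· < ·) ≤ (cofNum NullSets).ord := by
        by_contra h7
        rw [not_le] at h7
        obtain ⟨l, hl⟩ := Ordinal.typein_surj (α := L) (· < ·) h7
        have h8 := hcon2 l
        have h9 : #(Set.Iio l) = (Ordinal.typein (α := L) (· < ·) l).card :=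
          (Ordinal.card_typein (α := L) (r := (· < ·)) l)
        rw [h9, hl, Cardinal.card_ord] at h8
        exact absurd h8 (lt_irrefl _)
      have h7 := Ordinal.card_le_card h6
      rw [Cardinal.card_ord, Ordinal.card_type] at h7
      exact absurd h7 (not_le.2 hcon)
    obtain ⟨l, hl⟩ := h5
    exact absurd hl (not_le.2 (lt_cof_of_notCaptured (hNC2 l)))
  have h5 : ∀ γ ∈ ChainLengths NullSets, (Cardinal.aleph 2).ord ≤ γ := by
    intro γ hγ
    have h6 := lt_card_of_partlyCaptured hPart γ hγ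
    rw [hK] at h6
    rw [Cardinal.ord_le, ← h12]
    exact Order.succ_le_of_lt h6
  have h6 : dominating ≤ Cardinal.aleph 2 := (dominating_le_of_dominated hDom).trans hΩ
  have hne : (ChainLengths NullSets).Nonempty := by
    obtain ⟨γ, hγ, -⟩ := exists_chain
    exact ⟨γ, hγ⟩
  have h7 : (Cardinal.aleph 2).ord ≤ cofin NullSets := h5 _ (csInf_mem hne)
  have h8 : cofin NullSets ≤ dominating.ord.cof.ord := cofin_le_cof_dominating
  have h9 : dominating.ord.cof.ord ≤ dominating.ord := Ordinal.ord_cof_le _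
  have h10 : dominating.ord ≤ (Cardinal.aleph 2).ord := Cardinal.ord_le_ord.2 h6
  refine ⟨h1, le_antisymm (h8.trans (h9.trans h10)) h7, ?_, le_antisymm (h2.trans h3) h4,
    le_antisymm h3 (h4.trans h2)⟩
  apply le_antisymm h6
  rw [← Cardinal.ord_le_ord]
  exact h7.trans (h8.trans h9)

end Pool.Agent.KS6_46.CF
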