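import Pool.Agent.KS6_46.CF.Tuk
import Pool.Graph.R_seed8.W924.CF.Chain

/-!
# `cofin(N) ≤ cf(𝔡)`
-/

set_option autoImplicit false

namespace Pool.Agent.KS6_46.CF

open Classical Set Filter MeasureTheory Cardinal
open scoped ENNReal Cardinal
open Pool.Agent.W684.CF Pool.Agent.W924.CF

/-- eventual domination -/
def DomLe (g f : ℕ → ℕ) : Prop := ∃ N, ∀ n, N ≤ n → g n ≤ f n

theorem DomLe.refl (f : ℕ → ℕ) : DomLe f f := ⟨0, fun _ _ => le_rfl⟩

theorem DomLe.of_le {f g : ℕ → ℕ} (h : ∀ n, f n ≤ g n) : DomLe f g := ⟨0, fun n _ => h n⟩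

theorem DomLe.trans {f g h : ℕ → ℕ} (h1 : DomLe f g) (h2 : DomLe g h) : DomLe f h := by
  obtain ⟨N, hN⟩ := h1
  obtain ⟨M, hM⟩ := h2
  exact ⟨max N M, fun n hn => (hN n ((le_max_left _ _).trans hn)).trans
    (hM n ((le_max_right _ _).trans hn))⟩

/-- The dominating number `𝔡`: the least size of a family of functions from `ℕ` to `ℕ` such that
every function is eventually dominated by a member of the family. -/
noncomputable def dominating : Cardinal.{0} :=
  sInf {c | ∃ F : Set (ℕ → ℕ), (∀ g : ℕ → ℕ, ∃ f ∈ F, DomLe g f) ∧ #F = c}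

/-- the sets which belong to `JF g` as soon as `g` dominates countably many members of `F` -/
def SG (F : Set (ℕ → ℕ)) : Set (Set Cant) :=
  {A | ∃ s : ℕ → ℕ → ℕ, (∀ n, s n ∈ F) ∧ ∀ g, (∀ n, DomLe (s n) g) → A ∈ JF g}

theorem SG_sigma {F : Set (ℕ → ℕ)} (hF : F.Nonempty) : SigmaIdeal (SG F) := by
  obtain ⟨f, hf⟩ := hF
  refine ⟨⟨fun _ => f, fun _ => hf, fun g _ => (sigmaIdeal_JF g).1⟩, ?_, ?_⟩
  · rintro A ⟨s, h1, h2⟩ B hB
    exact ⟨s, h1, fun g hg => (sigmaIdeal_JF g).2.1 A (h2 g hg) B hB⟩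
  · intro A hA
    choose s h1 h2 using hA
    refine ⟨fun n => s n.unpair.1 n.unpair.2, fun n => h1 _ _, fun g hg => ?_⟩
    refine (sigmaIdeal_JF g).2.2 A fun k => h2 k g fun n => ?_
    have := hg (Nat.pair k n)
    simp only [Nat.unpair_pair] at this
    exact this

theorem SG_null {F : Set (ℕ → ℕ)} : SG F ⊆ NullSets := by
  rintro A ⟨s, -, h2⟩
  let g : ℕ → ℕ := fun n => (Finset.range (n + 1)).sup fun i => s i n
  refine JF_null g (h2 g fun i => ⟨i, fun n hn => ?_⟩)
  exact Finset.le_sup (f := fun i => s i n) (Finset.mem_range.2 (by omega))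

theorem SG_mem {F : Set (ℕ → ℕ)} {f : ℕ → ℕ} (hf : f ∈ F) : JF f ⊆ SG F :=
  fun _ hA => ⟨fun _ => f, fun _ => hf, fun _ hg => JF_mono (hg 0) hA⟩

/-- if the family `F` of monotone functions is closed under maxima and not dominating, then `SG F`
is a proper ideal -/
theorem SG_proper {F : Set (ℕ → ℕ)} (hmono : ∀ f ∈ F, Monotone f)
    (hmax : ∀ f ∈ F, ∀ g ∈ F, (fun n => max (f n) (g n)) ∈ F) {h : ℕ → ℕ} (hh : Monotone h)
    (hF : ∀ f ∈ F, ¬ DomLe h f) : HH h ∉ SG F := by
  rintro ⟨s, hs, hs2⟩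
  -- increasing maxima
  let t : ℕ → ℕ → ℕ := fun j => Nat.rec (s 0) (fun i r n => max (r n) (s (i + 1) n)) j
  have ht0 : t 0 = s 0 := rfl
  have ht1 : ∀ j, t (j + 1) = fun n => max (t j n) (s (j + 1) n) := fun j => rfl
  have htF : ∀ j, t j ∈ F := by
    intro j
    induction j with
    | zero => exact hs 0
    | succ j ih => rw [ht1]; exact hmax _ ih _ (hs _)
  have htm : ∀ n, Monotone fun j => t j n := fun n => monotone_nat_of_le_succ fun j => by
    show t j n ≤ t (j + 1) n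
    rw [ht1]
    exact le_max_left _ _
  have hts : ∀ j n, s j n ≤ t j n := by
    intro j n
    cases j with
    | zero => exact le_rfl
    | succ j => rw [ht1]; exact le_max_right _ _
  have hbig : ∀ j N, ∃ k, N < k ∧ t j k < h k := by
    intro j N
    by_contra hcon
    push Not at hcon
    exact hF _ (htF j) ⟨N + 1, fun n hn => hcon n (by omega)⟩
  choose kk hkk1 hkk2 using hbig
  let k : ℕ → ℕ := fun j => Nat.rec (kk 0 0) (fun i r => kk (i + 1) r) j
  have hk1 : ∀ j, k j < k (j + 1) := fun j => hkk1 (j + 1) (k j)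
  have hk2 : ∀ j, t j (k j) < h (k j) := by
    intro j
    cases j with
    | zero => exact hkk2 0 0
    | succ j => exact hkk2 (j + 1) (k j)
  have hkm : StrictMono k := strictMono_nat_of_lt_succ hk1
  have hex : ∀ n, ∃ j, n ≤ k j := fun n => ⟨n, hkm.id_le n⟩
  have hdp : ∀ n, DecidablePred fun j => n ≤ k j := fun n j => Nat.decLe _ _
  let d : ℕ → ℕ := fun n => @Nat.find (fun j => n ≤ k j) (hdp n) (hex n)
  have hd1 : ∀ n, n ≤ k (d n) := fun n => @Nat.find_spec _ (hdp n) (hex n)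
  have hd2 : ∀ n j, n ≤ k j → d n ≤ j := fun n j hj => @Nat.find_min' _ (hdp n) (hex n) _ hj
  have hdm : Monotone d := fun a b hab => hd2 a (d b) (hab.trans (hd1 b))
  have hdk : ∀ j, d (k j) = j := fun j => by
    apply le_antisymm (hd2 _ _ le_rfl)
    have := hd1 (k j)
    exact hkm.le_iff_le.1 this
  let g : ℕ → ℕ := fun n => t (d n) n
  have hgm : Monotone g := fun a b hab =>
    (htm a (hdm hab)).trans (hmono _ (htF _) hab)
  have hgs : ∀ j, DomLe (s j) g := fun j => ⟨k j, fun n hn => by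
    refine (hts j n).trans (htm n ?_)
    rw [← hdk j]
    exact hdm hn⟩
  refine HH_notMem hgm hh (fun N => ⟨k N, hkm.id_le N, ?_⟩) (hs2 g hgs)
  show t (d (k N)) (k N) < h (k N)
  rw [hdk]
  exact hk2 N

/-- the least monotone function above -/
def mon (f : ℕ → ℕ) : ℕ → ℕ := fun n => (Finset.range (n + 1)).sup f

theorem mon_mono (f : ℕ → ℕ) : Monotone (mon f) := fun a b hab =>
  Finset.sup_mono (Finset.range_mono (by omega))

theorem le_mon (f : ℕ → ℕ) (n : ℕ) : f n ≤ mon f n :=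
  Finset.le_sup (f := f) (Finset.mem_range.2 (by omega))

theorem exists_dominating : ∃ f : dominating.ord.ToType → ℕ → ℕ, ∀ g, ∃ i, DomLe g (f i) := by
  have hne : {c | ∃ F : Set (ℕ → ℕ), (∀ g : ℕ → ℕ, ∃ f ∈ F, DomLe g f) ∧ #F = c}.Nonempty :=
    ⟨_, univ, fun g => ⟨g, mem_univ _, DomLe.refl g⟩, rfl⟩
  obtain ⟨F, hF, hc⟩ := csInf_mem hne
  have h1 : Cardinal.mk dominating.ord.ToType = #F := by
    rw [Cardinal.mk_ord_toType]
    exact hc.symm
  obtain ⟨e⟩ := Cardinal.eq.1 h1
  refine ⟨fun i => (e i).1, fun g => ?_⟩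
  obtain ⟨f, hf, hg⟩ := hF g
  exact ⟨e.symm ⟨f, hf⟩, by simpa using hg⟩

theorem dominating_le {F : Set (ℕ → ℕ)} (hF : ∀ g : ℕ → ℕ, ∃ f ∈ F, DomLe g f) :
    dominating ≤ #F := csInf_le' ⟨F, hF, rfl⟩

theorem not_dominating {F : Set (ℕ → ℕ)} (hF : #F < dominating) : ∃ g, ∀ f ∈ F, ¬ DomLe g f := by
  by_contra hcon
  push Not at hcon
  exact absurd (dominating_le hcon) (not_le.2 hF)

theorem aleph0_le_dominating : ℵ₀ ≤ dominating := by
  obtain ⟨f, hf⟩ := exists_dominating
  by_contra hcon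
  rw [not_le, ← Cardinal.mk_ord_toType dominating, Cardinal.lt_aleph0_iff_finite] at hcon
  have := Fintype.ofFinite dominating.ord.ToType
  obtain ⟨i, N, hN⟩ := hf fun n => (Finset.univ.sup fun i => f i n) + 1
  have h1 := hN N le_rfl
  have h2 := Finset.le_sup (f := fun i => f i N) (Finset.mem_univ i)
  simp only at h1 h2
  omega

theorem exists_chain : ∃ γ ∈ ChainLengths NullSets, γ ≤ dominating.ord.cof.ord := by
  obtain ⟨f, hf⟩ := exists_dominating
  let X : Type := dominating.ord.ToType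
  let F : X → Set (ℕ → ℕ) := fun i =>
    {t | ∃ u : Finset X, (∀ j ∈ u, j ≤ i) ∧ t = fun n => u.sup fun j => mon (f j) n}
  have hFmono : ∀ i, ∀ t ∈ F i, Monotone t := by
    rintro i _ ⟨u, -, rfl⟩ a b hab
    exact Finset.sup_mono_fun fun j _ => mon_mono (f j) hab
  have hFmax : ∀ i, ∀ t ∈ F i, ∀ t' ∈ F i, (fun n => max (t n) (t' n)) ∈ F i := by
    rintro i _ ⟨u, hu, rfl⟩ _ ⟨v, hv, rfl⟩
    refine ⟨u ∪ v, fun j hj => ?_, ?_⟩
    · rcases Finset.mem_union.1 hj with h | h
      · exact hu j h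
      · exact hv j h
    · funext n
      exact Finset.sup_union.symm
  have hFc : ∀ i, #(F i) < dominating := by
    intro i
    have h1 : #(F i) ≤ #(Finset (Iic i)) := by
      refine Cardinal.mk_le_of_surjective (f := fun u : Finset (Iic i) =>
        (⟨fun n => (u.map ⟨Subtype.val, Subtype.val_injective⟩).sup fun j => mon (f j) n,
          u.map ⟨Subtype.val, Subtype.val_injective⟩, fun j hj => ?_, rfl⟩ : F i)) ?_
      · obtain ⟨⟨j', hj'⟩, -, rfl⟩ := Finset.mem_map.1 hj
        exact hj'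
      · rintro ⟨_, u, hu, rfl⟩
        refine ⟨u.attach.map ⟨fun j => ⟨j.1, hu j.1 j.2⟩, fun a b h => ?_⟩, ?_⟩
        · have := congrArg Subtype.val h
          exact Subtype.ext this
        · apply Subtype.ext
          funext n
          dsimp only
          congr 1
          ext j
          rw [Finset.mem_map]
          constructor
          · rintro ⟨y, hy, rfl⟩
            obtain ⟨z, -, rfl⟩ := Finset.mem_map.1 hy
            exact z.2
          · intro hj
            exact ⟨⟨j, hu j hj⟩, Finset.mem_map.2 ⟨⟨j, hj⟩, Finset.mem_attach _ _, rfl⟩, rfl⟩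
    refine h1.trans_lt ?_
    have h2 : #(Iic i) < dominating := by
      have h3 : #(Iio i) < dominating := Cardinal.mk_Iio_toType_ord_lt i
      have h4 : Iic i = insert i (Iio i) := by
        ext β
        simp only [Set.mem_Iic, Set.mem_insert_iff, Set.mem_Iio]
        exact le_iff_eq_or_lt
      rw [h4]
      refine (Cardinal.mk_insert_le).trans_lt ?_
      exact Cardinal.add_lt_of_lt aleph0_le_dominating h3
        (Cardinal.one_lt_aleph0.trans_le aleph0_le_dominating)
    rcases finite_or_infinite (Iic i) with h | h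
    · exact (Cardinal.lt_aleph0_of_finite _).trans_le aleph0_le_dominating
    · rw [Cardinal.mk_finset_of_infinite]
      exact h2
  obtain ⟨s, hs1, hs2⟩ := Ordinal.exists_ord_cof_eq X
  have hcofX : Order.cof X = dominating.ord.cof := Ordinal.cof_toType _
  have h1 : SigmaIdeal NullSets := by
    refine ⟨?_, ?_, ?_⟩
    · show mu ∅ = 0
      simp
    · intro A hA B hB
      exact measure_mono_null hB hA
    · intro g hg
      exact measure_iUnion_null hg
  have h2 : ∀ i : s, SigmaIdeal (SG (F i.1)) := fun i =>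
    SG_sigma ⟨_, ∅, fun j hj => absurd hj (Finset.notMem_empty j), rfl⟩
  have h3 : ∀ i : s, ¬ NullSets ⊆ SG (F i.1) := by
    intro i hsub
    obtain ⟨h, hh⟩ := not_dominating (hFc i.1)
    refine SG_proper (hFmono _) (hFmax _) (mon_mono h) (fun t ht hd => ?_) (hsub (HH_null _))
    exact hh t ht ((DomLe.of_le (le_mon h)).trans hd)
  have h4 : ∀ A ∈ NullSets, ∃ i : s, ∀ i', i ≤ i' → A ∈ SG (F i'.1) := by
    intro A hA
    obtain ⟨g, hg⟩ := exists_JF hA
    obtain ⟨i, hi⟩ := hf g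
    obtain ⟨x, hx, hix⟩ := hs1 i
    refine ⟨⟨x, hx⟩, fun x' hx' => ?_⟩
    have hmem : (fun n => ({i} : Finset X).sup fun j => mon (f j) n) ∈ F x'.1 :=
      ⟨{i}, fun j hj => by rw [Finset.mem_singleton.1 hj]; exact hix.trans hx', rfl⟩
    have hdom : DomLe g (fun n => ({i} : Finset X).sup fun j => mon (f j) n) := by
      refine hi.trans (DomLe.of_le fun n => ?_)
      rw [Finset.sup_singleton]
      exact le_mon (f i) n
    exact SG_mem hmem (JF_mono hdom hg)
  obtain ⟨γ, hγ1, hγ2⟩ := chain Cant s NullSets h1 (fun i => SG (F i.1)) h2 h3 h4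
  refine ⟨γ, hγ1, hγ2.trans ?_⟩
  rw [← hcofX, ← hs2]

theorem cofin_le_cof_dominating : cofin NullSets ≤ dominating.ord.cof.ord := by
  obtain ⟨γ, h1, h2⟩ := exists_chain
  exact (csInf_le' h1).trans h2

end Pool.Agent.KS6_46.CF
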