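import Pool.Agent.KS6_46.CF.Sent
import Pool.Graph.R_seed8.W684.CF.Final
import Pool.Graph.R_seed8.W924.CF.NC
import Pool.Graph.R_seed8.W924.CF.Dom
import Pool.Graph.R_seed8.W924.CF.Part
import Pool.Graph.R_seed8.W924.CF.Card
import Pool.Graph.R_seed8.W179.CF.Ext
import Pool.Graph.R_seed8.W179.CF.Raw
import Pool.Graph.R_seed8.W152.CF.Book
import Pool.Graph.R_seed8.W684.FM.Ambient

/-!
# The forcing theorem
-/

set_option autoImplicit false
set_option linter.unusedSectionVars false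
set_option linter.deprecated false

namespace Pool.Agent.KS6_46.CF

open Classical Cardinal Pool.Agent.Helper669.Forcing Pool.Agent.W684.CF Pool.Agent.W924.CF
  Pool.Agent.W152.CF

/-! ### All functions are listed -/

theorem listed {M I W : Type} {rs : I → Prop} [LinearOrder W] [WellFoundedLT W]
    {Γ : Par M W rs} (hccc : CCC Γ) {Λ : Type} (e : Λ → Nm M rs) (he : Function.Surjective e)
    (p : PP Γ) : p ∈ ListedN (PP Γ) Λ := by
  let E : Λ → ℕ → ℕ → Set (PP Γ) := fun a n v => {r | Val (le Γ Set.univ) (PP.toC r) (e a) n v}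
  have hE : ∀ a n v (r : PP Γ), r ∈ meets (E a n v) →
      ∃ r' : PP Γ, r' ≤ r ∧ Val (le Γ Set.univ) (PP.toC r') (e a) n v := by
    intro a n v r hr
    obtain ⟨r', hr', z, hz, hrz⟩ := hr r le_rfl
    exact ⟨r', hr', Val.mono (Γ := Γ) low_univ hz hrz⟩
  refine mem_fex.2 fun p1 hp1 => ⟨p1, le_rfl, E, ?_, ?_⟩
  · intro a
    refine ⟨fun n => ?_, fun n v v' => ?_⟩
    · refine mem_fex.2 fun r hr => ?_
      obtain ⟨r', hr', v, hv⟩ := Val.dense (Γ := Γ) low_univ (PP.toC r) (e a) n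
      exact ⟨(r' : PP Γ), hr', v, meets_of_mem (P := PP Γ) (N := E a n v) (p := r') hv⟩
    · refine mem_fimp.2 fun r hr h => ⟨r, le_rfl, ?_⟩
      obtain ⟨s, hs, hsv⟩ := hE a n v r h.1
      obtain ⟨s', hs', hsv'⟩ := hE a n v' s (down_meets _ _ h.2 _ hs)
      exact (Val.mono (Γ := Γ) low_univ hsv hs').unique hsv'
  · intro g
    refine mem_fimp.2 fun q hq hg => ⟨q, le_rfl, ?_⟩
    obtain ⟨X, hX⟩ := Pool.Agent.W179.CF.rawF M I W rs Γ hccc g q hg
    obtain ⟨a, rfl⟩ := he X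
    refine mem_fex.2 fun q1 hq1 => ⟨q1, le_rfl, a, ?_⟩
    intro n v
    refine mem_fimp.2 fun q2 hq2 h => ?_
    obtain ⟨q3, hq3, hv⟩ := hE a n v q2 h
    exact ⟨q3, hq3, hX q3 (hq3.trans (hq2.trans hq1)) n v hv⟩

/-! ### The parameters -/

theorem exists_forcing {K Ω Λ : Type} [LinearOrder K] [WellFoundedLT K] [LinearOrder Ω]
    [WellFoundedLT Ω] [LinearOrder Λ] (hne : Nonempty Ω) (hunc : Uncountable K)
    (hK1 : ∀ k : K, (Set.Iio k).Countable) (hK2 : ∀ k : K, ∃ k', k < k')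
    (hb : ∀ f : K → Ω, ∃ β, ∀ k, f k < β) {kl : K → Λ} (hkl : Function.Injective kl)
    (hF : ∀ (l : Λ) (F : Λ → Set.Iio l × ℕ), ∃ z, ¬ (F ⁻¹' {z}).Countable)
    {e : Λ → NmI K Ω Λ} (he : Function.Surjective e)
    {code : Option K × (K → NmI K Ω Λ × (Ω × Λ) × NmI K Ω Λ) → Λ}
    (hcode : Function.Injective code) :
    ∃ (P : Type) (_ : Preorder P), Nonempty P ∧ Pool.Agent.W684.FM.PCCC P ∧
      ∀ p : P, p ∈ PsiHolds P K Λ Ω (Ω × Λ) := by
  obtain ⟨ω⟩ := hne
  have : Nonempty Ω := ⟨ω⟩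
  obtain ⟨k₁⟩ : Nonempty K := inferInstance
  let d₀ : Dat K Ω Λ := (fun _ _ => none, (ω, kl k₁), fun _ _ => none)
  have hG : Good (GB d₀ e code) := good hK1 hK2 hcode
  have hL : Luz (GB d₀ e code) Set.univ := luz _ _ _ _ _ hG
  have hlc : Function.Injective (Ix.lz : Λ → Ix Ω Λ) := fun l l' h => Ix.lz.inj h
  have hE : S_EXT := Pool.Agent.W179.CF.ext_long
  have hCCC : CCC (GB d₀ e code) := ccc_of_luz hL (fun k => Ix.lz (kl k))
    (fun k k' h => hkl (hlc h)) fun k => rfl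
  refine ⟨PP (GB d₀ e code), inferInstance, ⟨(Cond.one : Cond (Λ ⊕ K) (Ix.rs (Ω := Ω) (Λ := Λ)))⟩,
    ?_, fun p => ⟨?_, fun l => ?_, listed hCCC e he p, ?_, ?_⟩⟩
  · intro A hA
    by_contra hcon
    obtain ⟨p, hp, q, hq, hne, r, h1, h2⟩ := hCCC A hcon
    exact hA p hp q hq hne ⟨r, h1, h2⟩
  · refine notCaptured hE _ _ _ _ _ hG hL K Unit (fun k => Ix.lz (kl k))
      (fun k k' h => hkl (hlc h)) (fun k => rfl) ?_ p
    intro F
    by_contra hcon
    push Not at hcon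
    have h1 : (Set.univ : Set K).Countable := by
      refine (Set.countable_iUnion hcon).mono fun k _ => ?_
      exact Set.mem_iUnion.2 ⟨F k, rfl⟩
    exact not_countable (Set.countable_univ_iff.1 h1)
  · exact notCaptured hE _ _ _ _ _ hG hL Λ (Set.Iio l) Ix.lz hlc (fun _ => rfl) (hF l) p
  · refine dominated hE Pool.Agent.W179.CF.rawF _ _ _ _ _ hG hCCC Ω Ix.dm (fun _ h => h) ?_ p
    intro x
    obtain ⟨β₀, hβ₀⟩ := supp_bdd hb x
    refine ⟨β₀, fun β hβ => ?_⟩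
    obtain ⟨a, rfl⟩ := he x
    refine ⟨Sum.inl a, ?_⟩
    have h1 : Supp {i : Ix Ω Λ | Ix.rk i < (β : WithBot Ω)} (e a) :=
      hβ₀.mono fun i hi => lt_of_lt_of_le hi (WithBot.coe_le_coe.2 hβ)
    show reqB d₀ e code (.dm β) (.inl a) = _
    simp only [reqB]
    rw [if_pos h1]
  · refine partlyCaptured hE Pool.Agent.W179.CF.rawF Pool.Agent.W179.CF.rawB _ _ _ _ _ hG hCCC K
      (Ω × Λ) (fun z => Ix.co z.1 z.2) ?_ p
    intro x E
    obtain ⟨β, D, hv, hD⟩ := exists_data hb hK2 d₀ code x E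
    refine ⟨.sl β (code (none, D)), fun k => ⟨.inr k, (D k).2.1, ?_⟩⟩
    show reqB d₀ e code (.sl β (code (none, D))) (.inr k) = _
    rw [req_valid hcode hv k, (hD k).1, (hD k).2]

/-! ### The cardinalities -/

theorem exists_forcing_card (μ : Cardinal.{0}) (h2μ : Cardinal.aleph 2 < μ)
    (hμ : μ ^ (Cardinal.aleph 1 : Cardinal.{0}) = μ) :
    ∃ (P : Type) (_ : Preorder P), Nonempty P ∧ Pool.Agent.W684.FM.PCCC P ∧
      ∀ p : P, p ∈ PsiHolds P (Cardinal.aleph 1 : Cardinal.{0}).ord.ToType μ.ord.ToType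
        (Cardinal.aleph 2 : Cardinal.{0}).ord.ToType
        ((Cardinal.aleph 2 : Cardinal.{0}).ord.ToType × μ.ord.ToType) := by
  let K : Type := (Cardinal.aleph 1 : Cardinal.{0}).ord.ToType
  let Ω : Type := (Cardinal.aleph 2 : Cardinal.{0}).ord.ToType
  let Λ : Type := μ.ord.ToType
  have hK : #K = Cardinal.aleph 1 := Cardinal.mk_ord_toType _
  have hΩ : #Ω = Cardinal.aleph 2 := Cardinal.mk_ord_toType _
  have hΛ : #Λ = μ := Cardinal.mk_ord_toType _
  have h12 : Order.succ (Cardinal.aleph 1 : Cardinal.{0}) = Cardinal.aleph 2 := by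
    rw [Cardinal.succ_aleph, one_add_one_eq_two]
  have hK0 : ℵ₀ < #K := by
    rw [hK]; exact Cardinal.aleph0_lt_aleph_one
  have hKΩ : #K < #Ω := by
    rw [hK, hΩ, ← h12]; exact Order.lt_succ _
  have hΩΛ : #Ω < #Λ := by
    rw [hΛ, hΩ]; exact h2μ
  have hc : ℵ₀ ≤ #Λ := (hK0.trans (hKΩ.trans hΩΛ)).le
  have hc3 : #Λ ^ #K = #Λ := by
    rw [hΛ, hK]; exact hμ
  have hc2 : #Λ ^ ℵ₀ = #Λ := by
    apply le_antisymm
    · conv_rhs => rw [← hc3]
      exact Cardinal.power_le_power_left (Cardinal.aleph0_pos.trans_le hc).ne' hK0.le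
    · exact Cardinal.self_le_power _ (Cardinal.one_le_aleph0)
  have hIio : ∀ k : K, (Set.Iio k).Countable := fun k => by
    rw [Cardinal.countable_iff_lt_aleph_one]
    exact Cardinal.mk_Iio_toType_ord_lt k
  have hunc : Uncountable K := Cardinal.aleph0_lt_mk_iff.1 hK0
  have hM : #(Λ ⊕ K) ≤ #Λ := by
    rw [Cardinal.mk_sum, Cardinal.lift_id, Cardinal.lift_id]
    exact (add_le_add le_rfl (hKΩ.trans hΩΛ).le).trans (Cardinal.add_eq_self hc).le
  have hI : #(Ix Ω Λ) ≤ #Λ := mk_Ix hc hΩΛ.le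
  have hN : #(NmI K Ω Λ) ≤ #Λ := mk_Nm hc hc2 hM hI
  have hne : Nonempty Ω := by
    rw [← Cardinal.mk_ne_zero_iff]
    exact (hK0.trans hKΩ).ne_bot
  have hK2 : ∀ k : K, ∃ k', k < k' := by
    intro k
    by_contra hcon
    push Not at hcon
    have h1 : (Set.univ : Set K) ⊆ insert k (Set.Iio k) := by
      intro k' _
      rcases (hcon k').lt_or_eq with h | h
      · exact Or.inr h
      · exact Or.inl h
    have h2 : (Set.univ : Set K).Countable := ((hIio k).insert k).mono h1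
    exact Set.not_countable_univ h2
  have hb : ∀ f : K → Ω, ∃ β, ∀ k, f k < β := by
    intro f
    by_contra hcon
    push Not at hcon
    have h1 : (Set.univ : Set Ω) = ⋃ k, Set.Iic (f k) := by
      ext β
      simp only [Set.mem_univ, Set.mem_iUnion, Set.mem_Iic, true_iff]
      exact hcon β
    have h2 : ∀ k, #(Set.Iic (f k)) ≤ #K := by
      intro k
      have h30 : #(Set.Iio (f k)) < Cardinal.aleph 2 := Cardinal.mk_Iio_toType_ord_lt (f k)
      have h3 : #(Set.Iio (f k)) ≤ #K := by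
        rw [hK]
        exact Order.lt_succ_iff.1 (lt_of_lt_of_eq h30 h12.symm)
      have h4 : Set.Iic (f k) = insert (f k) (Set.Iio (f k)) := by
        ext β
        simp only [Set.mem_Iic, Set.mem_insert_iff, Set.mem_Iio]
        exact le_iff_eq_or_lt
      rw [h4]
      refine (Cardinal.mk_insert_le).trans ?_
      exact (add_le_add h3 (Cardinal.one_le_aleph0.trans hK0.le)).trans
        (Cardinal.add_eq_self hK0.le).le
    have h3 : #Ω ≤ #K := by
      rw [← Cardinal.mk_univ, h1]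
      refine (Cardinal.mk_iUnion_le _).trans ?_
      calc #K * _ ≤ #K * #K := mul_le_mul' le_rfl (ciSup_le' h2)
        _ = #K := Cardinal.mul_eq_self hK0.le
    exact absurd h3 (not_le.2 hKΩ)
  obtain ⟨⟨kl, hkl⟩⟩ : #K ≤ #Λ := (hKΩ.trans hΩΛ).le
  have hF : ∀ (l : Λ) (F : Λ → Set.Iio l × ℕ), ∃ z, ¬ (F ⁻¹' {z}).Countable := by
    intro l F
    by_contra hcon
    push Not at hcon
    have h1 : (Set.univ : Set Λ) = ⋃ z, F ⁻¹' {z} := by
      ext a
      simp
    have h4 : #(Set.Iio l) < #Λ := by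
      rw [hΛ]; exact Cardinal.mk_Iio_toType_ord_lt l
    have h2 : #Λ ≤ max #(Set.Iio l) ℵ₀ := by
      rw [← Cardinal.mk_univ, h1]
      refine (Cardinal.mk_iUnion_le _).trans ?_
      have h3 : #(Set.Iio l × ℕ) ≤ max #(Set.Iio l) ℵ₀ := by
        rw [Cardinal.mk_prod, Cardinal.lift_id, Cardinal.lift_id]
        refine (mul_le_mul' (le_max_left _ ℵ₀) (Cardinal.mk_le_aleph0.trans (le_max_right #(Set.Iio l) ℵ₀))).trans ?_
        exact (Cardinal.mul_eq_self (le_max_right _ _)).le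
      calc #(Set.Iio l × ℕ) * _ ≤ max #(Set.Iio l) ℵ₀ * ℵ₀ := by
            apply mul_le_mul' h3
            apply ciSup_le'
            intro z
            exact Cardinal.mk_le_aleph0_iff.2 (hcon z).to_subtype
        _ = max #(Set.Iio l) ℵ₀ := Cardinal.mul_aleph0_eq (le_max_right _ _)
    exact absurd h2 (not_le.2 (max_lt h4 (hK0.trans (hKΩ.trans hΩΛ))))
  obtain ⟨e, he⟩ : ∃ e : Λ → NmI K Ω Λ, Function.Surjective e := by
    obtain ⟨g⟩ := hN
    have : Nonempty (NmI K Ω Λ) := ⟨fun _ _ => none⟩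
    exact ⟨Function.invFun g, Function.invFun_surjective g.injective⟩
  obtain ⟨code, hcode⟩ : ∃ code : Option K × (K → NmI K Ω Λ × (Ω × Λ) × NmI K Ω Λ) → Λ,
      Function.Injective code := by
    have h1 : #(NmI K Ω Λ × (Ω × Λ) × NmI K Ω Λ) ≤ #Λ := by
      simp only [Cardinal.mk_prod, Cardinal.lift_id]
      calc #(NmI K Ω Λ) * (#Ω * #Λ * #(NmI K Ω Λ)) ≤ #Λ * (#Λ * #Λ * #Λ) :=
            mul_le_mul' hN (mul_le_mul' (mul_le_mul' hΩΛ.le le_rfl) hN)
        _ = #Λ := by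
            rw [Cardinal.mul_eq_self hc, Cardinal.mul_eq_self hc, Cardinal.mul_eq_self hc]
    have h2 : #(K → NmI K Ω Λ × (Ω × Λ) × NmI K Ω Λ) ≤ #Λ := by
      rw [← Cardinal.power_def]
      conv_rhs => rw [← hc3]
      exact Cardinal.power_le_power_right h1
    have h3 : #(Option K × (K → NmI K Ω Λ × (Ω × Λ) × NmI K Ω Λ)) ≤ #Λ := by
      rw [Cardinal.mk_prod, Cardinal.lift_id, Cardinal.lift_id, Cardinal.mk_option]
      have h4 : #K + 1 ≤ #Λ :=
        (add_le_add (hKΩ.trans hΩΛ).le (Cardinal.one_le_aleph0.trans hc)).trans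
          (Cardinal.add_eq_self hc).le
      exact (mul_le_mul' h4 h2).trans (Cardinal.mul_eq_self hc).le
    obtain ⟨g⟩ := h3
    exact ⟨g, g.injective⟩
  exact exists_forcing hne hunc hIio hK2 hb hkl hF he hcode

end Pool.Agent.KS6_46.CF
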