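import Pool.Graph.R_seed8.W924.CF.Mod

/-!
# Null sets of prescribed growth

For monotone `h` the null set `HH h` is in `JF g`, `g` monotone, only if `h` is eventually
dominated by `g`.
-/

set_option autoImplicit false

namespace Pool.Agent.KS6_46.CF

open Classical Set Filter MeasureTheory
open scoped ENNReal
open Pool.Agent.W684.CF Pool.Agent.W924.CF

/-- infinitely often there are `m` zeroes from the place `h (2 m)` on -/
def HH (h : ℕ → ℕ) : Set Cant := {x | ∃ᶠ m in atTop, ∀ i < m, x (h (2 * m) + i) = false}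

theorem HH_null (h : ℕ → ℕ) : HH h ∈ NullSets := by
  refine measure_setOfPred_frequently_eq_zero ?_
  simp only [mu_zero_block]
  rw [ENNReal.tsum_geometric, ENNReal.one_sub_inv_two, inv_inv]
  exact ENNReal.ofNat_ne_top

theorem HH_notMem {g h : ℕ → ℕ} (hg : Monotone g) (hh : Monotone h)
    (hgh : ∀ N, ∃ k, N ≤ k ∧ g k < h k) : HH h ∉ JF g := by
  rintro ⟨W, hW1, hW2, hW3⟩
  choose kk hkk1 hkk2 using hgh
  -- a sparse sequence of places
  let k : ℕ → ℕ := fun j => Nat.rec (kk 1) (fun _ s => kk (2 * s + 2)) j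
  have hk0 : k 0 = kk 1 := rfl
  have hk1 : ∀ j, k (j + 1) = kk (2 * k j + 2) := fun j => rfl
  have hk2 : ∀ j, g (k j) < h (k j) := by
    intro j
    cases j with
    | zero => exact hkk2 1
    | succ j => exact hkk2 _
  have hk3 : ∀ j, 2 * k j + 2 ≤ k (j + 1) := fun j => by
    rw [hk1]; exact hkk1 _
  have hkmono : StrictMono k := strictMono_nat_of_lt_succ fun j => by
    have := hk3 j
    omega
  let m : ℕ → ℕ := fun j => (k j + 1) / 2
  have hm1 : ∀ j, k j ≤ 2 * m j := fun j => by
    show k j ≤ 2 * ((k j + 1) / 2)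
    omega
  have hm2 : ∀ j, 2 * m j ≤ k j + 1 := fun j => by
    show 2 * ((k j + 1) / 2) ≤ k j + 1
    omega
  have hm3 : ∀ j, 2 * m j ≤ m (j + 1) := fun j => by
    have h1 := hk3 j
    show 2 * ((k j + 1) / 2) ≤ (k (j + 1) + 1) / 2
    omega
  have hm4 : ∀ j, j ≤ m j := by
    intro j
    induction j with
    | zero => exact Nat.zero_le _
    | succ j ih =>
      have h1 := hk3 j
      show j + 1 ≤ (k (j + 1) + 1) / 2
      have h2 : j ≤ (k j + 1) / 2 := ih
      omega
  have hsum : ∀ J, ∑ j ∈ Finset.range (J + 1), m j ≤ 2 * m J := by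
    intro J
    induction J with
    | zero => simp; omega
    | succ J ih =>
      rw [Finset.sum_range_succ]
      have := hm3 J
      omega
  let F : ℕ → ℕ := fun j => h (2 * m j)
  let Z : ℕ → Prop := fun n => ∃ j i, i < m j ∧ n = F j + i
  let φ : Cant → Cant := fun x n => if Z n then false else x n
  have hφH : ∀ x, φ x ∈ HH h := by
    intro x
    show ∃ᶠ q in atTop, ∀ i < q, φ x (h (2 * q) + i) = false
    rw [frequently_atTop]
    intro N
    refine ⟨m N, hm4 N, fun i hi => ?_⟩
    exact if_pos ⟨N, i, hi, rfl⟩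
  -- few coordinates
  let Zn : ℕ → Finset ℕ := fun n => (Finset.range (g n)).filter Z
  have hZn : ∀ n, (Zn n).card ≤ n := by
    intro n
    rcases Nat.eq_zero_or_pos n with rfl | hn
    · rw [Nat.le_zero, Finset.card_eq_zero, Finset.eq_empty_iff_forall_notMem]
      intro x hx
      rw [Finset.mem_filter, Finset.mem_range] at hx
      obtain ⟨h1, j, i, hi, rfl⟩ := hx
      have h2 : g 0 ≤ g (k j) := hg (Nat.zero_le _)
      have h3 : h (k j) ≤ F j := hh (hm1 j)
      have h4 := hk2 j
      omega
    have key : ∀ x ∈ Zn n, ∃ j, k j < n ∧ ∃ i < m j, x = F j + i := by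
      intro x hx
      rw [Finset.mem_filter, Finset.mem_range] at hx
      obtain ⟨h1, j, i, hi, rfl⟩ := hx
      refine ⟨j, ?_, i, hi, rfl⟩
      by_contra hcon
      have h2 : g n ≤ g (k j) := hg (not_lt.1 hcon)
      have h3 : h (k j) ≤ F j := hh (hm1 j)
      have h4 := hk2 j
      omega
    rcases Classical.em (∃ j : ℕ, k j < n) with hex | hex
    swap
    · have : Zn n = ∅ := by
        rw [Finset.eq_empty_iff_forall_notMem]
        intro x hx
        obtain ⟨j, hj, -⟩ := key x hx
        exact hex ⟨j, hj⟩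
      rw [this]
      exact Nat.zero_le _
    obtain ⟨J, hJ1, hJ2⟩ : ∃ J, k J < n ∧ ∀ j, k j < n → j ≤ J := by
      have hb : ∀ j, k j < n → j ≤ n := fun j hj => (hkmono.id_le j).trans hj.le
      refine ⟨Nat.findGreatest (fun j => k j < n) n, ?_, fun j hj => ?_⟩
      · obtain ⟨j, hj⟩ := hex
        exact Nat.findGreatest_spec (P := fun j => k j < n) (hb j hj) hj
      · exact Nat.le_findGreatest (hb j hj) hj
    have h1 : Zn n ⊆ ((Finset.range (J + 1)).sigma fun j => Finset.range (m j)).image
        (fun q : (_ : ℕ) × ℕ => F q.1 + q.2) := by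
      intro x hx
      obtain ⟨j, hj, i, hi, rfl⟩ := key x hx
      rw [Finset.mem_image]
      refine ⟨⟨j, i⟩, ?_, rfl⟩
      rw [Finset.mem_sigma, Finset.mem_range, Finset.mem_range]
      exact ⟨Nat.lt_succ_of_le (hJ2 j hj), hi⟩
    refine (Finset.card_le_card h1).trans (Finset.card_image_le.trans ?_)
    rw [Finset.card_sigma]
    simp only [Finset.card_range]
    have h2 := hsum J
    have h3 := hm2 J
    omega
  have hpre : ∀ n, mu {x | φ x ∈ W n} ≤ 2 ^ n * mu (W n) := by
    intro n
    have h1 : {x | φ x ∈ W n} ⊆ ⋃ s ∈ (Zn n).powerset, Pool.Agent.W924.CF.flip s ⁻¹' W n := by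
      intro x hx
      rw [mem_iUnion₂]
      refine ⟨(Zn n).filter fun i => x i = true, Finset.mem_powerset.2 (Finset.filter_subset _ _), ?_⟩
      refine hW1 n (φ x) _ (fun i hi => ?_) hx
      by_cases hZ : Z i
      · have h2 : φ x i = false := if_pos hZ
        have h3 : i ∈ Zn n := Finset.mem_filter.2 ⟨Finset.mem_range.2 hi, hZ⟩
        rw [h2]
        unfold Pool.Agent.W924.CF.flip
        by_cases hx : x i = true
        · rw [if_pos (Finset.mem_filter.2 ⟨h3, hx⟩), hx]; rfl
        · have h4 : i ∉ (Zn n).filter fun i => x i = true := fun h => hx (Finset.mem_filter.1 h).2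
          rw [if_neg h4]
          simpa using hx
      · have h2 : φ x i = x i := if_neg hZ
        have h3 : i ∉ (Zn n).filter fun i => x i = true := fun h =>
          hZ (Finset.mem_filter.1 (Finset.mem_filter.1 h).1).2
        rw [h2]
        unfold Pool.Agent.W924.CF.flip
        rw [if_neg h3]
    refine (measure_mono h1).trans ((measure_biUnion_finset_le _ _).trans ?_)
    have h2 : ∀ s ∈ (Zn n).powerset, mu (Pool.Agent.W924.CF.flip s ⁻¹' W n) ≤ mu (W n) := fun s _ =>
      ((mp_flip s).measure_preimage (hW1 n).meas.nullMeasurableSet).le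
    refine (Finset.sum_le_card_nsmul _ _ _ h2).trans ?_
    rw [nsmul_eq_mul, Finset.card_powerset]
    gcongr
    push_cast
    exact pow_le_pow_right₀ (by norm_num) (hZn n)
  have h1 : mu {x | ∃ᶠ n in atTop, φ x ∈ W n} = 0 :=
    measure_setOfPred_frequently_eq_zero (ne_top_of_le_ne_top hW2 (ENNReal.tsum_le_tsum hpre))
  have h2 : {x | ∃ᶠ n in atTop, φ x ∈ W n} = univ := by
    ext x
    simp only [mem_ofPred_eq, mem_univ, iff_true]
    exact hW3 (hφH x)
  rw [h2, measure_univ] at h1
  exact one_ne_zero h1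

end Pool.Agent.KS6_46.CF
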